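import Pool.Agent.Y762.LB.Main

/-!
# Bilinear spherical maximal functions over sparse sets of radii: the main theorems
-/

set_option autoImplicit false

open MeasureTheory Set
open scoped ENNReal NNReal Pointwise

namespace Pool.Agent.Y762.LB

open Pool.Agent.Helper406.LacBilinear

variable {d : ℕ}

/-- The quasi-norm of `L ^ p` of a nonnegative function, `0 < p < ∞`. -/
noncomputable def strongL (d : ℕ) (p : ℝ) (h : E d → ℝ≥0∞) : ℝ≥0∞ :=
  (∫⁻ x, h x ^ p) ^ (1 / p)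

/-- lower bound for the strong quasi-norm of the maximal function -/
theorem strong_low (hd : 1 ≤ d) (r b ρ : ℝ) (hr : 0 < r) (hr1 : r ≤ 1) (hb : 0 < b)
    (hρ : 0 < ρ) (t : ℕ → ℝ) (n : ℕ) (ht : ∀ k < n, 0 < t k)
    (hsep : ∀ i j, i < j → j < n → 2 * t i ≤ t j) (h : E d → ℝ≥0∞)
    (hh : ∀ k < n, ∀ x, ‖x‖ < t k / 4 →
      ENNReal.ofReal ((ρ ^ d * b) * (t k) ^ (-(d / r) : ℝ)) ≤ h x) :
    (n : ℝ≥0∞) ^ (1 / r) * (ENNReal.ofReal (ρ ^ d) * kk d r b r) ≤ strongL d r h := by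
  set β : ℕ → ℝ := fun k => (ρ ^ d * b) * (t k) ^ (-(d / r) : ℝ) with hβ
  have hβ0 : ∀ k < n, 0 ≤ β k := fun k hk => by
    have := ht k hk
    rw [hβ]
    positivity
  set h0 : E d → ℝ := bg d β (fun k => t k / 8) n with hh0
  have h0nn : ∀ y, 0 ≤ h0 y := bg_nonneg _ _ _
  have hle : ∀ y, ENNReal.ofReal (h0 y) ≤ h y := by
    intro y
    rcases bg_cases β (fun k => t k / 8) n y with h' | ⟨k, hk, h1, h2⟩
    · rw [hh0, h', ENNReal.ofReal_zero]
      exact zero_le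
    · rw [hh0, h2]
      exact hh k hk y (by linarith)
  have h1 := lor_low hd r b r ρ hr hr1 hb hr hρ t n ht hsep (fun y => ENNReal.ofReal (h0 y))
    (fun k hk x hx => ENNReal.ofReal_le_ofReal
      (bg_ge β (fun k => t k / 8) n k hk x (by linarith)))
  refine h1.trans ?_
  unfold lorentz strongL
  refine ENNReal.rpow_le_rpow ?_ (by positivity)
  have h2 := lintegral_rpow_eq_lintegral_meas_lt_mul (volume : Measure (E d)) (f := h0)
    (Filter.Eventually.of_forall h0nn) (measurable_bg _ _ _).aemeasurable hr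
  have h3 : ENNReal.ofReal r * ∫⁻ l in Ioi (0 : ℝ), ENNReal.ofReal (l ^ (r - 1)) *
      (volume {x : E d | ENNReal.ofReal l < ENNReal.ofReal (h0 x)}) ^ (r / r) =
      ∫⁻ x, ENNReal.ofReal (h0 x ^ r) := by
    rw [h2]
    congr 1
    refine setLIntegral_congr_fun measurableSet_Ioi fun l hl => ?_
    have hl0 : 0 < l := hl
    rw [div_self hr.ne', ENNReal.rpow_one, mul_comm]
    congr 2
    ext x
    simp only [mem_ofPred_eq]
    constructor
    · intro hx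
      exact (ENNReal.ofReal_lt_ofReal_iff'.mp hx).1
    · intro hx
      exact (ENNReal.ofReal_lt_ofReal_iff (hl0.trans hx)).mpr hx
  rw [h3]
  refine lintegral_mono fun x => ?_
  rw [← ENNReal.ofReal_rpow_of_nonneg (h0nn x) hr.le]
  exact ENNReal.rpow_le_rpow (hle x) hr.le

/-- the second test function -/
noncomputable def tg2 (d : ℕ) (q : ℝ) (t : ℕ → ℝ) (n : ℕ) : E d → ℝ :=
  bg d (fun k => (2 * t k) ^ (-(d / q) : ℝ)) t n

lemma testFun_tg2 (q : ℝ) (T : Set ℝ) (t : ℕ → ℝ) (n : ℕ) (ht : Sep T t n) :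
    TestFun (tg2 d q t n) :=
  testFun_bg _ _ _ (fun k hk => by have := (ht.1 k hk).1; positivity)
    (fun k hk => (ht.1 k hk).1.le)

theorem q_engine (hd : 1 ≤ d) (q : ℝ) (hq : 0 < q) (s : ℝ) (hs : 0 < s) (T : Set ℝ) (t : ℕ → ℝ)
    (n : ℕ) (hn : 1 ≤ n) (ht : Sep T t n) (Y : (E d → ℝ) → ℝ≥0∞) (C : ℝ≥0)
    (hI : Ineq d T (lorentz d (q / (1 + q)) s) Y C) :
    (n : ℝ≥0∞) ^ (1 / s) * kk d (q / (1 + q)) (c0 d * 2 ^ (-(d / q) : ℝ)) s ≤
      C * (volume (Metric.ball (0 : E d) 1) * Y (tg2 d q t n)) := by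
  have hρ : 0 < t 0 := (ht.1 0 (by omega)).1
  have h1 := hI (bf d (t 0)) (tg2 d q t n) (testFun_bf _) (testFun_tg2 q T t n ht)
  rw [eLpNorm_bf _ hρ] at h1
  have h2 := lor_low hd (q / (1 + q)) (c0 d * 2 ^ (-(d / q) : ℝ)) s (t 0) (by positivity)
    (by rw [div_le_one (by positivity)]; linarith) (mul_pos (c0_pos hd) (by positivity)) hs hρ t n
    (fun k hk => (ht.1 k hk).1) ht.2 (radMax d T (bf d (t 0)) (tg2 d q t n))
    (fun k hk x hx => radMax_ge_q hd T q hq _ t n (t 0) hρ (fun _ => rfl) ht.ge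
      (fun k hk => (ht.1 k hk).2) k hk x hx.le)
  exact cancel _ (by positivity) _ _ _ _ _ (h2.trans h1)

theorem q_engine_strong (hd : 1 ≤ d) (q : ℝ) (hq : 0 < q) (T : Set ℝ)
    (t : ℕ → ℝ) (n : ℕ) (hn : 1 ≤ n) (ht : Sep T t n) (Y : (E d → ℝ) → ℝ≥0∞) (C : ℝ≥0)
    (hI : Ineq d T (strongL d (q / (1 + q))) Y C) :
    (n : ℝ≥0∞) ^ (1 / (q / (1 + q))) *
      kk d (q / (1 + q)) (c0 d * 2 ^ (-(d / q) : ℝ)) (q / (1 + q)) ≤
      C * (volume (Metric.ball (0 : E d) 1) * Y (tg2 d q t n)) := by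
  have hρ : 0 < t 0 := (ht.1 0 (by omega)).1
  have h1 := hI (bf d (t 0)) (tg2 d q t n) (testFun_bf _) (testFun_tg2 q T t n ht)
  rw [eLpNorm_bf _ hρ] at h1
  have h2 := strong_low hd (q / (1 + q)) (c0 d * 2 ^ (-(d / q) : ℝ)) (t 0) (by positivity)
    (by rw [div_le_one (by positivity)]; linarith) (mul_pos (c0_pos hd) (by positivity)) hρ t n
    (fun k hk => (ht.1 k hk).1) ht.2 (radMax d T (bf d (t 0)) (tg2 d q t n))
    (fun k hk x hx => radMax_ge_q hd T q hq _ t n (t 0) hρ (fun _ => rfl) ht.ge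
      (fun k hk => (ht.1 k hk).2) k hk x hx.le)
  exact cancel _ (by positivity) _ _ _ _ _ (h2.trans h1)

theorem inf_engine (hd : 1 ≤ d) (s : ℝ) (hs : 0 < s) (T : Set ℝ) (t : ℕ → ℝ)
    (n : ℕ) (hn : 1 ≤ n) (ht : Sep T t n) (Y : (E d → ℝ) → ℝ≥0∞) (C : ℝ≥0)
    (hI : Ineq d T (lorentz d 1 s) Y C) :
    (n : ℝ≥0∞) ^ (1 / s) * kk d 1 (c0 d) s ≤
      C * (volume (Metric.ball (0 : E d) 1) * Y (bg d (fun _ => 1) t n)) := by
  have hρ : 0 < t 0 := (ht.1 0 (by omega)).1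
  have h1 := hI (bf d (t 0)) (bg d (fun _ => 1) t n) (testFun_bf _)
    (testFun_bg _ _ _ (fun _ _ => zero_le_one) (fun k hk => (ht.1 k hk).1.le))
  rw [eLpNorm_bf _ hρ] at h1
  have h2 := lor_low hd 1 (c0 d) s (t 0) one_pos le_rfl (c0_pos hd) hs hρ t n
    (fun k hk => (ht.1 k hk).1) ht.2 (radMax d T (bf d (t 0)) (bg d (fun _ => 1) t n))
    (fun k hk x hx => by
      have htk := (ht.1 k hk).1
      refine le_trans (le_of_eq ?_) (radMax_ge hd T (fun _ => 1) t n (t 0) hρ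
        (fun _ _ => zero_le_one) ht.ge (fun k hk => (ht.1 k hk).2) k hk x hx.le)
      congr 1
      rw [div_one, Real.rpow_neg htk.le, Real.rpow_natCast, div_pow]
      field_simp)
  exact cancel _ (by positivity) _ _ _ _ _ (h2.trans h1)

lemma V_ne_zero : volume (Metric.ball (0 : E d) 1) ≠ 0 := volume_ball_pos.ne'

lemma V_rpow_ne_zero (x : ℝ) : volume (Metric.ball (0 : E d) 1) ^ x ≠ 0 := by
  intro h
  rcases ENNReal.rpow_eq_zero_iff.mp h with h | h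
  · exact V_ne_zero h.1
  · exact volume_ball_ne_top h.1

lemma rpow_ne_zero' (x : ℝ≥0∞) (y : ℝ) (hx : x ≠ 0) (hy : 0 ≤ y) : x ^ y ≠ 0 := by
  intro h
  rcases ENNReal.rpow_eq_zero_iff.mp h with h | h
  · exact hx h.1
  · linarith [h.2]

/-- quantitative form on the Lorentz scale -/
theorem quant_lorentz (hd : 1 ≤ d) (q s u : ℝ) (hq : 0 < q) (hs : 0 < s) (hu : 0 < u) :
    ∃ c : ℝ, 0 < c ∧ ∀ (T : Set ℝ) (t : ℕ → ℝ) (n : ℕ), 1 ≤ n → Sep T t n → ∀ C : ℝ≥0,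
      Ineq d T (lorentz d (q / (1 + q)) s) (fun g => lorentz d q u (fun x => ‖g x‖ₑ)) C →
      c * (n : ℝ) ^ (1 / s - 1 / u) ≤ C := by
  set V := volume (Metric.ball (0 : E d) 1) with hV
  have hr : 0 < q / (1 + q) := by positivity
  have hb : 0 < c0 d * 2 ^ (-(d / q) : ℝ) := mul_pos (c0_pos hd) (by positivity)
  have h0 : ENNReal.ofReal q * (ENNReal.ofReal (1 / u) * V ^ (u / q)) ≠ 0 := by
    refine mul_ne_zero ?_ (mul_ne_zero ?_ (V_rpow_ne_zero _))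
    · rw [Ne, ENNReal.ofReal_eq_zero, not_le]; exact hq
    · rw [Ne, ENNReal.ofReal_eq_zero, not_le]; positivity
  have ht : ENNReal.ofReal q * (ENNReal.ofReal (1 / u) * V ^ (u / q)) ≠ ∞ :=
    ENNReal.mul_ne_top ENNReal.ofReal_ne_top (ENNReal.mul_ne_top ENNReal.ofReal_ne_top
      (ENNReal.rpow_ne_top_of_nonneg (by positivity) volume_ball_ne_top))
  obtain ⟨c, hc, H⟩ := conv (kk d (q / (1 + q)) (c0 d * 2 ^ (-(d / q) : ℝ)) s)
    (V * (ENNReal.ofReal q * (ENNReal.ofReal (1 / u) * V ^ (u / q))) ^ (1 / u))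
    (kk_ne_zero _ _ _ hr hb hs) (kk_ne_top _ _ _ hr hs)
    (mul_ne_zero V_ne_zero (rpow_ne_zero' _ _ h0 (by positivity)))
    (ENNReal.mul_ne_top volume_ball_ne_top (ENNReal.rpow_ne_top_of_nonneg (by positivity) ht))
    (1 / s) (1 / u) (by positivity)
  refine ⟨c, hc, fun T t n hn hsep C hI => H n hn C ?_⟩
  refine (q_engine hd q hq s hs T t n hn hsep _ C hI).trans ?_
  refine mul_le_mul' le_rfl ?_
  rw [mul_assoc]
  refine mul_le_mul' le_rfl ?_
  have h1 := lorentz_bg_le (d := d) q u hq hu (fun k => (2 * t k) ^ (-(d / q) : ℝ)) t n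
    (fun k hk => (hsep.1 k hk).1) (fun _ _ => rfl)
  have hu' : 0 ≤ 1 / u := by positivity
  have h2 := ENNReal.rpow_le_rpow (mul_le_mul_right h1 (ENNReal.ofReal q)) hu'
  refine le_trans h2 (le_of_eq ?_)
  rw [← ENNReal.mul_rpow_of_nonneg _ _ hu']
  congr 1
  ring

/-- quantitative form, strong type -/
theorem quant_strong (hd : 1 ≤ d) (q : ℝ) (hq : 0 < q) :
    ∃ c : ℝ, 0 < c ∧ ∀ (T : Set ℝ) (t : ℕ → ℝ) (n : ℕ), 1 ≤ n → Sep T t n → ∀ C : ℝ≥0,
      Ineq d T (strongL d (q / (1 + q))) (fun g => eLpNorm g (ENNReal.ofReal q) volume) C →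
      c * (n : ℝ) ≤ C := by
  set V := volume (Metric.ball (0 : E d) 1) with hV
  have hr : 0 < q / (1 + q) := by positivity
  have hb : 0 < c0 d * 2 ^ (-(d / q) : ℝ) := mul_pos (c0_pos hd) (by positivity)
  obtain ⟨c, hc, H⟩ := conv (kk d (q / (1 + q)) (c0 d * 2 ^ (-(d / q) : ℝ)) (q / (1 + q)))
    (V * V ^ (1 / q)) (kk_ne_zero _ _ _ hr hb hr) (kk_ne_top _ _ _ hr hr)
    (mul_ne_zero V_ne_zero (V_rpow_ne_zero _))
    (ENNReal.mul_ne_top volume_ball_ne_top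
      (ENNReal.rpow_ne_top_of_nonneg (by positivity) volume_ball_ne_top))
    (1 / (q / (1 + q))) (1 / q) (by positivity)
  refine ⟨c, hc, fun T t n hn hsep C hI => ?_⟩
  have h3 := H n hn C (by
    refine (q_engine_strong hd q hq T t n hn hsep _ C hI).trans ?_
    refine mul_le_mul' le_rfl ?_
    rw [mul_assoc]
    refine mul_le_mul' le_rfl ?_
    rw [eLpNorm_eq_lintegral_rpow_enorm_toReal (by simpa using hq) ENNReal.ofReal_ne_top,
      ENNReal.toReal_ofReal hq.le, ← ENNReal.mul_rpow_of_nonneg _ _ (by positivity), mul_comm V]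
    exact ENNReal.rpow_le_rpow (lintegral_bg q hq _ t n (fun k hk => (hsep.1 k hk).1)
      (fun _ _ => rfl)) (by positivity))
  have e : 1 / (q / (1 + q)) - 1 / q = 1 := by field_simp; ring
  rwa [e, Real.rpow_one] at h3

/-- failure for `L ^ 1 × L ^ q → L ^ {r, s}`, `s < q` -/
theorem quant_q (hd : 1 ≤ d) (q s : ℝ) (hq : 0 < q) (hs : 0 < s) :
    ∃ c : ℝ, 0 < c ∧ ∀ (T : Set ℝ) (t : ℕ → ℝ) (n : ℕ), 1 ≤ n → Sep T t n → ∀ C : ℝ≥0,
      Ineq d T (lorentz d (q / (1 + q)) s) (fun g => eLpNorm g (ENNReal.ofReal q) volume) C →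
      c * (n : ℝ) ^ (1 / s - 1 / q) ≤ C := by
  set V := volume (Metric.ball (0 : E d) 1) with hV
  have hr : 0 < q / (1 + q) := by positivity
  have hb : 0 < c0 d * 2 ^ (-(d / q) : ℝ) := mul_pos (c0_pos hd) (by positivity)
  obtain ⟨c, hc, H⟩ := conv (kk d (q / (1 + q)) (c0 d * 2 ^ (-(d / q) : ℝ)) s)
    (V * V ^ (1 / q)) (kk_ne_zero _ _ _ hr hb hs) (kk_ne_top _ _ _ hr hs)
    (mul_ne_zero V_ne_zero (V_rpow_ne_zero _))
    (ENNReal.mul_ne_top volume_ball_ne_top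
      (ENNReal.rpow_ne_top_of_nonneg (by positivity) volume_ball_ne_top))
    (1 / s) (1 / q) (by positivity)
  refine ⟨c, hc, fun T t n hn hsep C hI => ?_⟩
  exact H n hn C (by
    refine (q_engine hd q hq s hs T t n hn hsep _ C hI).trans ?_
    refine mul_le_mul' le_rfl ?_
    rw [mul_assoc]
    refine mul_le_mul' le_rfl ?_
    rw [eLpNorm_eq_lintegral_rpow_enorm_toReal (by simpa using hq) ENNReal.ofReal_ne_top,
      ENNReal.toReal_ofReal hq.le, ← ENNReal.mul_rpow_of_nonneg _ _ (by positivity), mul_comm V]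
    exact ENNReal.rpow_le_rpow (lintegral_bg q hq _ t n (fun k hk => (hsep.1 k hk).1)
      (fun _ _ => rfl)) (by positivity))

/-- failure for `L ^ 1 × L ^ {q, ∞} → L ^ {r, s}`, `s < ∞` -/
theorem quant_weak (hd : 1 ≤ d) (q s : ℝ) (hq : 0 < q) (hs : 0 < s) :
    ∃ c : ℝ, 0 < c ∧ ∀ (T : Set ℝ) (t : ℕ → ℝ) (n : ℕ), 1 ≤ n → Sep T t n → ∀ C : ℝ≥0,
      Ineq d T (lorentz d (q / (1 + q)) s) (fun g => weakL d q (fun x => ‖g x‖ₑ)) C →
      c * (n : ℝ) ^ (1 / s) ≤ C := by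
  set V := volume (Metric.ball (0 : E d) 1) with hV
  have hr : 0 < q / (1 + q) := by positivity
  have hb : 0 < c0 d * 2 ^ (-(d / q) : ℝ) := mul_pos (c0_pos hd) (by positivity)
  obtain ⟨c, hc, H⟩ := conv (kk d (q / (1 + q)) (c0 d * 2 ^ (-(d / q) : ℝ)) s)
    (V * V ^ (1 / q)) (kk_ne_zero _ _ _ hr hb hs) (kk_ne_top _ _ _ hr hs)
    (mul_ne_zero V_ne_zero (V_rpow_ne_zero _))
    (ENNReal.mul_ne_top volume_ball_ne_top
      (ENNReal.rpow_ne_top_of_nonneg (by positivity) volume_ball_ne_top))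
    (1 / s) 0 le_rfl
  refine ⟨c, hc, fun T t n hn hsep C hI => ?_⟩
  have h3 := H n hn C (by
    refine (q_engine hd q hq s hs T t n hn hsep _ C hI).trans ?_
    refine mul_le_mul' le_rfl ?_
    rw [ENNReal.rpow_zero, mul_one]
    refine mul_le_mul' le_rfl ?_
    exact weakL_bg_le q hq _ t n (fun k hk => (hsep.1 k hk).1) (fun _ _ => rfl))
  rwa [sub_zero] at h3

/-- failure for `L ^ 1 × L ^ ∞ → L ^ {1, s}`, `s < ∞` -/
theorem quant_inf (hd : 1 ≤ d) (s : ℝ) (hs : 0 < s) :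
    ∃ c : ℝ, 0 < c ∧ ∀ (T : Set ℝ) (t : ℕ → ℝ) (n : ℕ), 1 ≤ n → Sep T t n → ∀ C : ℝ≥0,
      Ineq d T (lorentz d 1 s) (fun g => eLpNorm g ∞ volume) C →
      c * (n : ℝ) ^ (1 / s) ≤ C := by
  set V := volume (Metric.ball (0 : E d) 1) with hV
  obtain ⟨c, hc, H⟩ := conv (kk d 1 (c0 d) s) V (kk_ne_zero _ _ _ one_pos (c0_pos hd) hs)
    (kk_ne_top _ _ _ one_pos hs) V_ne_zero volume_ball_ne_top (1 / s) 0 le_rfl
  refine ⟨c, hc, fun T t n hn hsep C hI => ?_⟩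
  have h3 := H n hn C (by
    refine (inf_engine hd s hs T t n hn hsep _ C hI).trans ?_
    refine mul_le_mul' le_rfl ?_
    rw [ENNReal.rpow_zero]
    refine mul_le_mul' le_rfl ?_
    rw [eLpNorm_exponent_top]
    refine eLpNormEssSup_le_of_ae_enorm_bound (Filter.Eventually.of_forall fun y => ?_)
    rw [Real.enorm_of_nonneg (bg_nonneg _ _ _ _), ← ENNReal.ofReal_one]
    exact ENNReal.ofReal_le_ofReal (bg_le _ t n 1 zero_le_one (fun _ _ => le_rfl) y))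
  rwa [sub_zero] at h3

lemma lacMax_eq (f g : E d → ℝ) (x : E d) :
    lacMax d f g x = radMax d (range fun l : ℤ => (2 : ℝ) ^ l) f g x := by
  unfold lacMax radMax
  rw [iSup_range]

end Pool.Agent.Y762.LB
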