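import Pool.Agent.Y762.LB.Test

/-!
# Lorentz quasi-norms: the bounds for the test functions
-/

set_option autoImplicit false

open MeasureTheory Set
open scoped ENNReal NNReal Pointwise

namespace Pool.Agent.Y762.LB

open Pool.Agent.Helper406.LacBilinear

variable {d : ℕ}

/-- The Lorentz quasi-norm of `L ^ {p, s}`, `0 < p, s < ∞`, of a nonnegative function:
`(p ∫_0^∞ l ^ (s - 1) |{h > l}| ^ (s / p) dl) ^ (1 / s)`. -/
noncomputable def lorentz (d : ℕ) (p s : ℝ) (h : E d → ℝ≥0∞) : ℝ≥0∞ :=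
  (ENNReal.ofReal p * ∫⁻ l in Ioi (0 : ℝ), ENNReal.ofReal (l ^ (s - 1)) *
    (volume {x : E d | ENNReal.ofReal l < h x}) ^ (s / p)) ^ (1 / s)

/-- The quasi-norm of weak `L ^ p`: the supremum of `l |{h > l}| ^ (1 / p)` over `l > 0`. -/
noncomputable def weakL (d : ℕ) (p : ℝ) (h : E d → ℝ≥0∞) : ℝ≥0∞ :=
  ⨆ l ∈ Ioi (0 : ℝ), ENNReal.ofReal l * (volume {x : E d | ENNReal.ofReal l < h x}) ^ (1 / p)

/-- constant in the lower bound -/
noncomputable def kLow (d : ℕ) (r s : ℝ) : ℝ≥0∞ :=
  ENNReal.ofReal ((1 / 2) ^ s / 2 * (1 / 4) ^ (d * (s / r))) *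
    volume (Metric.ball (0 : E d) 1) ^ (s / r)

theorem lorentz_ge (hd : 1 ≤ d) (r s : ℝ) (hr : 0 < r) (hr1 : r ≤ 1) (hs : 0 < s) (b : ℝ)
    (hb : 0 < b) (t : ℕ → ℝ) (n : ℕ) (ht : ∀ k < n, 0 < t k)
    (hsep : ∀ i j, i < j → j < n → 2 * t i ≤ t j) (h : E d → ℝ≥0∞)
    (hh : ∀ k < n, ∀ x, ‖x‖ < t k / 4 →
      ENNReal.ofReal (b * (t k) ^ (-(d / r) : ℝ)) ≤ h x) :
    (n : ℝ≥0∞) * (ENNReal.ofReal (b ^ s) * kLow d r s) ≤
      ∫⁻ l in Ioi (0 : ℝ), ENNReal.ofReal (l ^ (s - 1)) *
        (volume {x : E d | ENNReal.ofReal l < h x}) ^ (s / r) := by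
  have hdr : (1 : ℝ) ≤ d / r := by
    rw [le_div_iff₀ hr]
    have : (1 : ℝ) ≤ d := by exact_mod_cast hd
    linarith
  set V := volume (Metric.ball (0 : E d) 1) with hV
  set β : ℕ → ℝ := fun k => b * (t k) ^ (-(d / r) : ℝ) with hβ
  have hβ0 : ∀ k < n, 0 < β k := fun k hk => mul_pos hb (Real.rpow_pos_of_pos (ht k hk) _)
  have hββ : ∀ i j, i < j → j < n → β j ≤ β i / 2 := by
    intro i j hij hj
    have hi0 := ht i (hij.trans hj)
    have h1 : (t j) ^ (-(d / r) : ℝ) ≤ (2 * t i) ^ (-(d / r) : ℝ) :=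
      Real.rpow_le_rpow_of_nonpos (by positivity) (hsep i j hij hj) (by linarith)
    rw [Real.mul_rpow (by norm_num) hi0.le] at h1
    have h2 : (2 : ℝ) ^ (-(d / r) : ℝ) ≤ 2 ^ (-1 : ℝ) :=
      Real.rpow_le_rpow_of_exponent_le (by norm_num) (by linarith)
    rw [Real.rpow_neg_one] at h2
    have h3 : 0 < (t i) ^ (-(d / r) : ℝ) := Real.rpow_pos_of_pos hi0 _
    calc β j = b * (t j) ^ (-(d / r) : ℝ) := rfl
      _ ≤ b * (2⁻¹ * (t i) ^ (-(d / r) : ℝ)) :=
          mul_le_mul_of_nonneg_left (h1.trans (mul_le_mul_of_nonneg_right h2 h3.le)) hb.le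
      _ = β i / 2 := by rw [hβ]; ring
  set A : ℕ → ℝ≥0∞ := fun k => ENNReal.ofReal ((β k / 2) ^ s / β k) *
    (ENNReal.ofReal ((t k / 4) ^ d) * V) ^ (s / r) with hA
  have hpt : ∀ l ∈ Ioi (0 : ℝ), ∑ k ∈ Finset.range n, (Ioo (β k / 2) (β k)).indicator
      (fun _ => A k) l ≤ ENNReal.ofReal (l ^ (s - 1)) *
        (volume {x : E d | ENNReal.ofReal l < h x}) ^ (s / r) := by
    intro l hl
    have hl0 : 0 < l := hl
    by_cases hex : ∃ k ∈ Finset.range n, l ∈ Ioo (β k / 2) (β k)
    · obtain ⟨k, hk, hlk⟩ := hex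
      have hkn := Finset.mem_range.mp hk
      rw [Finset.sum_eq_single k]
      · rw [indicator_of_mem hlk, hA]
        refine mul_le_mul' (ENNReal.ofReal_le_ofReal ?_) (ENNReal.rpow_le_rpow ?_ (by positivity))
        · rw [Real.rpow_sub_one hl0.ne']
          have h1 : (β k / 2) ^ s ≤ l ^ s :=
            Real.rpow_le_rpow (by have := hβ0 k hkn; positivity) hlk.1.le hs.le
          exact div_le_div₀ (by positivity) h1 hl0 hlk.2.le
        · rw [← volume_ball_eq _ (by have := ht k hkn; positivity)]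
          refine measure_mono fun x hx => ?_
          rw [mem_ball_zero_iff] at hx
          refine lt_of_lt_of_le ?_ (hh k hkn x hx)
          exact (ENNReal.ofReal_lt_ofReal_iff (hβ0 k hkn)).mpr hlk.2
      · intro i hi hik
        apply indicator_of_notMem
        intro hli
        have hin := Finset.mem_range.mp hi
        rcases lt_or_gt_of_ne hik with h' | h'
        · have := hββ i k h' hkn
          linarith [hli.1, hlk.2]
        · have := hββ k i h' hin
          linarith [hlk.1, hli.2]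
      · intro h'; exact absurd hk h'
    · push Not at hex
      rw [Finset.sum_eq_zero]
      · exact zero_le
      · intro j hj
        exact indicator_of_notMem (hex j hj) _
  calc (n : ℝ≥0∞) * (ENNReal.ofReal (b ^ s) * kLow d r s)
      = ∑ k ∈ Finset.range n, ENNReal.ofReal (b ^ s) * kLow d r s := by simp
    _ = ∑ k ∈ Finset.range n, A k * ENNReal.ofReal (β k - β k / 2) := by
        refine Finset.sum_congr rfl fun k hk => ?_
        have hkn := Finset.mem_range.mp hk
        have ht0 := ht k hkn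
        have hb0 := hβ0 k hkn
        have hsr : 0 ≤ s / r := by positivity
        rw [hA, kLow]
        simp only
        rw [ENNReal.mul_rpow_of_nonneg _ _ hsr, ENNReal.ofReal_rpow_of_pos (by positivity), ← hV]
        have eL : ENNReal.ofReal (b ^ s) *
            (ENNReal.ofReal ((1 / 2) ^ s / 2 * (1 / 4) ^ (d * (s / r))) * V ^ (s / r)) =
            ENNReal.ofReal (b ^ s * ((1 / 2) ^ s / 2 * (1 / 4) ^ (d * (s / r)))) *
              V ^ (s / r) := by
          rw [← mul_assoc, ← ENNReal.ofReal_mul (by positivity)]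
        have eR : ENNReal.ofReal ((β k / 2) ^ s / β k) *
            (ENNReal.ofReal (((t k / 4) ^ d) ^ (s / r)) * V ^ (s / r)) *
              ENNReal.ofReal (β k - β k / 2) =
            ENNReal.ofReal ((β k / 2) ^ s / β k * ((t k / 4) ^ d) ^ (s / r) *
              (β k - β k / 2)) * V ^ (s / r) := by
          rw [ENNReal.ofReal_mul (by positivity), ENNReal.ofReal_mul (by positivity)]
          ring
        rw [eL, eR]
        congr 2
        have e1 : β k / 2 = b * (1 / 2) * (t k) ^ (-(d / r) : ℝ) := by rw [hβ]; ring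
        have e2 : (β k / 2) ^ s = b ^ s * (1 / 2) ^ s * ((t k) ^ (-(d / r) : ℝ)) ^ s := by
          rw [e1, Real.mul_rpow (by positivity) (by positivity), Real.mul_rpow hb.le (by norm_num)]
        have e3 : ((t k / 4) ^ d) ^ (s / r) = (t k) ^ ((d : ℝ) * (s / r)) * (1 / 4) ^ (d * (s / r)) := by
          rw [← Real.rpow_natCast, ← Real.rpow_mul (by positivity), div_eq_mul_one_div (t k) 4,
            Real.mul_rpow ht0.le (by norm_num)]
        have e4 : ((t k) ^ (-(d / r) : ℝ)) ^ s * (t k) ^ ((d : ℝ) * (s / r)) = 1 := by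
          rw [← Real.rpow_mul ht0.le, ← Real.rpow_add ht0]
          have : -(d / r : ℝ) * s + d * (s / r) = 0 := by ring
          rw [this, Real.rpow_zero]
        have e5 : β k - β k / 2 = β k / 2 := by ring
        rw [e5, e3]
        have e6 : (β k / 2) ^ s / β k * (β k / 2) = (β k / 2) ^ s / 2 := by
          field_simp
        calc b ^ s * ((1 / 2) ^ s / 2 * (1 / 4) ^ (d * (s / r)))
            = b ^ s * (1 / 2) ^ s / 2 * (1 / 4) ^ (d * (s / r)) *
              (((t k) ^ (-(d / r) : ℝ)) ^ s * (t k) ^ ((d : ℝ) * (s / r))) := by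
                rw [e4]; ring
          _ = ((β k / 2) ^ s / β k * (β k / 2)) *
              ((t k) ^ ((d : ℝ) * (s / r)) * (1 / 4) ^ (d * (s / r))) := by
                rw [e6, e2]; ring
          _ = _ := by ring
    _ = ∑ k ∈ Finset.range n, ∫⁻ l in Ioi (0 : ℝ), (Ioo (β k / 2) (β k)).indicator
        (fun _ => A k) l := by
        refine Finset.sum_congr rfl fun k hk => ?_
        have hkn := Finset.mem_range.mp hk
        rw [lintegral_indicator measurableSet_Ioo, setLIntegral_const,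
          Measure.restrict_apply measurableSet_Ioo]
        have e : Ioo (β k / 2) (β k) ∩ Ioi 0 = Ioo (β k / 2) (β k) := by
          apply inter_eq_left.mpr
          intro l hl
          exact lt_trans (by have := hβ0 k hkn; positivity) hl.1
        rw [e, Real.volume_Ioo]
    _ = ∫⁻ l in Ioi (0 : ℝ), ∑ k ∈ Finset.range n, (Ioo (β k / 2) (β k)).indicator
        (fun _ => A k) l := by
        rw [lintegral_finsetSum]
        intro j _
        exact measurable_const.indicator measurableSet_Ioo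
    _ ≤ _ := setLIntegral_mono' measurableSet_Ioi hpt

/-- distribution function of the second test function -/
lemma dist_bg (a t : ℕ → ℝ) (n : ℕ) (ht : ∀ k < n, 0 < t k) (ha : ∀ k < n, 0 ≤ a k)
    (l : ℝ) :
    volume {y : E d | ENNReal.ofReal l < ‖bg d a t n y‖ₑ} = 0 ∨ ∃ k < n, l < a k ∧
      volume {y : E d | ENNReal.ofReal l < ‖bg d a t n y‖ₑ} ≤
        ENNReal.ofReal ((2 * t k) ^ d) * volume (Metric.ball (0 : E d) 1) := by
  classical
  set S := (Finset.range n).filter (fun k => l < a k) with hS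
  have hmem : ∀ y : E d, ENNReal.ofReal l < ‖bg d a t n y‖ₑ → ∃ k ∈ S, ‖y‖ < 2 * t k := by
    intro y hy
    rcases bg_cases a t n y with h | ⟨k, hk, h1, h2⟩
    · rw [h, enorm_zero] at hy
      exact absurd hy not_lt_zero
    · rw [h2, Real.enorm_of_nonneg (ha k hk)] at hy
      exact ⟨k, Finset.mem_filter.mpr ⟨Finset.mem_range.mpr hk,
        (ENNReal.ofReal_lt_ofReal_iff'.mp hy).1⟩, h1⟩
  rcases S.eq_empty_or_nonempty with h0 | h0
  · left
    have : {y : E d | ENNReal.ofReal l < ‖bg d a t n y‖ₑ} = ∅ := by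
      ext y
      simp only [mem_ofPred_eq, mem_empty_iff_false, iff_false]
      intro hy
      obtain ⟨k, hk, _⟩ := hmem y hy
      rw [h0] at hk
      simp at hk
    rw [this, measure_empty]
  · right
    obtain ⟨k, hk, hmax⟩ := Finset.exists_max_image S t h0
    obtain ⟨hk1, hk2⟩ := Finset.mem_filter.mp hk
    have hkn := Finset.mem_range.mp hk1
    refine ⟨k, hkn, hk2, ?_⟩
    rw [← volume_ball_eq _ (by have := ht k hkn; positivity)]
    refine measure_mono fun y hy => ?_
    obtain ⟨j, hj, hyj⟩ := hmem y hy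
    rw [mem_ball_zero_iff]
    have := hmax j hj
    linarith

lemma lint_rpow (u α : ℝ) (hu : 0 < u) (hα : 0 < α) :
    ∫⁻ l in Ioo (0 : ℝ) α, ENNReal.ofReal (l ^ (u - 1)) ≤ ENNReal.ofReal (α ^ u / u) := by
  have hi : IntervalIntegrable (fun l : ℝ => l ^ (u - 1)) volume 0 α :=
    intervalIntegral.intervalIntegrable_rpow' (by linarith)
  have h1 : ∫ l in (0 : ℝ)..α, l ^ (u - 1) = α ^ u / u := by
    rw [integral_rpow (Or.inl (by linarith))]
    have : u - 1 + 1 = u := by ring
    rw [this, Real.zero_rpow hu.ne', sub_zero]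
  rw [intervalIntegral.integral_of_le hα.le] at h1
  rw [← h1, ofReal_integral_eq_lintegral_ofReal]
  · exact lintegral_mono_set Ioo_subset_Ioc_self
  · exact (intervalIntegrable_iff_integrableOn_Ioc_of_le hα.le).mp hi
  · filter_upwards [ae_restrict_mem measurableSet_Ioc] with l hl
    exact Real.rpow_nonneg hl.1.le _

theorem lorentz_bg_le (q u : ℝ) (hq : 0 < q) (hu : 0 < u) (a t : ℕ → ℝ) (n : ℕ)
    (ht : ∀ k < n, 0 < t k) (ha : ∀ k < n, a k = (2 * t k) ^ (-(d / q : ℝ))) :
    ∫⁻ l in Ioi (0 : ℝ), ENNReal.ofReal (l ^ (u - 1)) *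
      (volume {y : E d | ENNReal.ofReal l < ‖bg d a t n y‖ₑ}) ^ (u / q) ≤
      (n : ℝ≥0∞) * (ENNReal.ofReal (1 / u) * volume (Metric.ball (0 : E d) 1) ^ (u / q)) := by
  have huq : 0 < u / q := by positivity
  have ha0 : ∀ k < n, 0 < a k := fun k hk => by
    rw [ha k hk]; exact Real.rpow_pos_of_pos (by have := ht k hk; positivity) _
  set V := volume (Metric.ball (0 : E d) 1) with hV
  have hpt : ∀ l ∈ Ioi (0 : ℝ), ENNReal.ofReal (l ^ (u - 1)) *
      (volume {y : E d | ENNReal.ofReal l < ‖bg d a t n y‖ₑ}) ^ (u / q) ≤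
      ∑ k ∈ Finset.range n, (Ioo 0 (a k)).indicator (fun l => ENNReal.ofReal (l ^ (u - 1)) *
        (ENNReal.ofReal ((2 * t k) ^ d) * V) ^ (u / q)) l := by
    intro l hl
    rcases dist_bg (d := d) a t n ht (fun k hk => (ha0 k hk).le) l with h | ⟨k, hk, h1, h2⟩
    · rw [h, ENNReal.zero_rpow_of_pos huq, mul_zero]
      exact zero_le
    · refine le_trans ?_ (Finset.single_le_sum (f := fun k => (Ioo 0 (a k)).indicator
        (fun l => ENNReal.ofReal (l ^ (u - 1)) *
        (ENNReal.ofReal ((2 * t k) ^ d) * V) ^ (u / q)) l) (fun _ _ => zero_le)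
        (Finset.mem_range.mpr hk))
      have hm : l ∈ Ioo (0 : ℝ) (a k) := ⟨hl, h1⟩
      rw [indicator_of_mem hm]
      exact mul_le_mul' le_rfl (ENNReal.rpow_le_rpow h2 huq.le)
  calc _ ≤ ∫⁻ l in Ioi (0 : ℝ), ∑ k ∈ Finset.range n, (Ioo 0 (a k)).indicator
        (fun l => ENNReal.ofReal (l ^ (u - 1)) *
        (ENNReal.ofReal ((2 * t k) ^ d) * V) ^ (u / q)) l :=
        setLIntegral_mono' measurableSet_Ioi hpt
    _ = ∑ k ∈ Finset.range n, ∫⁻ l in Ioi (0 : ℝ), (Ioo 0 (a k)).indicator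
        (fun l => ENNReal.ofReal (l ^ (u - 1)) *
        (ENNReal.ofReal ((2 * t k) ^ d) * V) ^ (u / q)) l := by
        rw [lintegral_finsetSum]
        intro j _
        refine Measurable.indicator ?_ measurableSet_Ioo
        exact (ENNReal.measurable_ofReal.comp (measurable_id.pow_const _)).mul_const _
    _ ≤ ∑ k ∈ Finset.range n, ENNReal.ofReal (1 / u) * V ^ (u / q) := by
        refine Finset.sum_le_sum fun k hk => ?_
        have hkn := Finset.mem_range.mp hk
        have htk := ht k hkn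
        rw [lintegral_indicator measurableSet_Ioo, Measure.restrict_restrict measurableSet_Ioo]
        have e : Ioo 0 (a k) ∩ Ioi 0 = Ioo 0 (a k) := by
          apply inter_eq_left.mpr
          intro l hl
          exact hl.1
        rw [e, lintegral_mul_const (f := fun l : ℝ => ENNReal.ofReal (l ^ (u - 1))) _
          (ENNReal.measurable_ofReal.comp (measurable_id.pow_const _))]
        refine le_trans (mul_le_mul' (lint_rpow u (a k) hu (ha0 k hkn)) le_rfl) (le_of_eq ?_)
        rw [ENNReal.mul_rpow_of_nonneg _ _ huq.le, ENNReal.ofReal_rpow_of_pos (by positivity),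
          ← mul_assoc, ← ENNReal.ofReal_mul (by have := ha0 k hkn; positivity)]
        congr 2
        rw [ha k hkn, ← Real.rpow_mul (by positivity), ← Real.rpow_natCast,
          ← Real.rpow_mul (by positivity), div_mul_eq_mul_div, ← Real.rpow_add (by positivity)]
        have : -(d / q : ℝ) * u + d * (u / q) = 0 := by ring
        rw [this, Real.rpow_zero]
    _ = _ := by simp

theorem weakL_bg_le (q : ℝ) (hq : 0 < q) (a t : ℕ → ℝ) (n : ℕ)
    (ht : ∀ k < n, 0 < t k) (ha : ∀ k < n, a k = (2 * t k) ^ (-(d / q : ℝ))) :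
    weakL d q (fun y => ‖bg d a t n y‖ₑ) ≤ volume (Metric.ball (0 : E d) 1) ^ (1 / q) := by
  have huq : 0 < 1 / q := by positivity
  have ha0 : ∀ k < n, 0 < a k := fun k hk => by
    rw [ha k hk]; exact Real.rpow_pos_of_pos (by have := ht k hk; positivity) _
  refine iSup₂_le fun l hl => ?_
  have hl0 : 0 < l := hl
  rcases dist_bg (d := d) a t n ht (fun k hk => (ha0 k hk).le) l with h | ⟨k, hk, h1, h2⟩
  · rw [h, ENNReal.zero_rpow_of_pos huq, mul_zero]
    exact zero_le
  · have htk := ht k hk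
    refine le_trans (mul_le_mul' (ENNReal.ofReal_le_ofReal h1.le)
      (ENNReal.rpow_le_rpow h2 huq.le)) (le_of_eq ?_)
    rw [ENNReal.mul_rpow_of_nonneg _ _ huq.le, ENNReal.ofReal_rpow_of_pos (by positivity),
      ← mul_assoc, ← ENNReal.ofReal_mul (ha0 k hk).le]
    have : a k * ((2 * t k) ^ d) ^ (1 / q) = 1 := by
      rw [ha k hk, ← Real.rpow_natCast, ← Real.rpow_mul (by positivity),
        ← Real.rpow_add (by positivity)]
      have : -(d / q : ℝ) + d * (1 / q) = 0 := by ring
      rw [this, Real.rpow_zero]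
    rw [this, ENNReal.ofReal_one, one_mul]

end Pool.Agent.Y762.LB
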