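import Pool.Agent.Y762.LB.Lor

/-!
# Bilinear spherical maximal functions over sparse sets of radii: failure on the Lorentz scale
-/

set_option autoImplicit false

open MeasureTheory Set
open scoped ENNReal NNReal Pointwise

namespace Pool.Agent.Y762.LB

open Pool.Agent.Helper406.LacBilinear

variable {d : ℕ}

/-- `M_T(f,g)(x)`, the supremum of `|A_t(f,g)(x)|` over the radii `t ∈ T`. -/
noncomputable def radMax (d : ℕ) (T : Set ℝ) (f g : E d → ℝ) (x : E d) : ℝ≥0∞ :=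
  ⨆ t ∈ T, ‖avg d t f g x‖ₑ

/-- Nonnegative bounded Borel functions with bounded support. -/
def TestFun (f : E d → ℝ) : Prop :=
  Measurable f ∧ (∀ x, 0 ≤ f x) ∧ (∃ b, ∀ x, f x ≤ b) ∧ ∃ R, ∀ x, R < ‖x‖ → f x = 0

/-- The inequality `‖M_T(f,g)‖_Z ≤ C ‖f‖_{L^1} ‖g‖_Y` for all test functions `f`, `g`. -/
def Ineq (d : ℕ) (T : Set ℝ) (Z : (E d → ℝ≥0∞) → ℝ≥0∞) (Y : (E d → ℝ) → ℝ≥0∞)
    (C : ℝ≥0) : Prop :=
  ∀ f g : E d → ℝ, TestFun f → TestFun g →
    Z (radMax d T f g) ≤ C * eLpNorm f 1 volume * Y g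

lemma testFun_bf (ρ : ℝ) : TestFun (bf d ρ) := by
  refine ⟨measurable_bf ρ, bf_nonneg ρ, ⟨1, bf_le_one ρ⟩, ρ, fun x hx => ?_⟩
  unfold bf
  rw [indicator_of_notMem]
  rw [mem_closedBall_zero_iff]
  exact not_le.mpr hx

lemma testFun_bg (a t : ℕ → ℝ) (n : ℕ) (ha : ∀ k < n, 0 ≤ a k) (ht : ∀ k < n, 0 ≤ t k) :
    TestFun (bg d a t n) := by
  refine ⟨measurable_bg a t n, bg_nonneg a t n, ⟨∑ k ∈ Finset.range n, a k, fun y => ?_⟩,
    ∑ k ∈ Finset.range n, 2 * t k, fun y hy => ?_⟩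
  · refine bg_le a t n _ (Finset.sum_nonneg fun k hk => ha k (Finset.mem_range.mp hk)) ?_ y
    intro k hk
    exact Finset.single_le_sum (f := a) (fun j hj => ha j (Finset.mem_range.mp hj))
      (Finset.mem_range.mpr hk)
  · rcases bg_cases a t n y with h | ⟨k, hk, h1, h2⟩
    · exact h
    · exfalso
      have := Finset.single_le_sum (f := fun k => 2 * t k)
        (fun j hj => mul_nonneg zero_le_two (ht j (Finset.mem_range.mp hj)))
        (Finset.mem_range.mpr hk)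
      linarith

/-- the constant `capConst` as a real number -/
noncomputable def c0 (d : ℕ) : ℝ := (capConst d).toReal

lemma c0_pos (hd : 1 ≤ d) : 0 < c0 d :=
  ENNReal.toReal_pos (capConst_ne_zero hd) (capConst_ne_top hd)

lemma radMax_ge (hd : 1 ≤ d) (T : Set ℝ) (a t : ℕ → ℝ) (n : ℕ) (ρ : ℝ) (hρ : 0 < ρ)
    (ha : ∀ k < n, 0 ≤ a k) (ht : ∀ k < n, ρ ≤ t k) (htT : ∀ k < n, t k ∈ T) :
    ∀ k < n, ∀ x : E d, ‖x‖ ≤ t k / 4 →
      ENNReal.ofReal (c0 d * (ρ / t k) ^ d * a k) ≤ radMax d T (bf d ρ) (bg d a t n) x := by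
  intro k hk x hx
  obtain ⟨-, hg0, ⟨b, hb⟩, -⟩ := testFun_bg (d := d) a t n ha (fun k hk => hρ.le.trans (ht k hk))
  have h1 := avg_ge' hd (bg d a t n) (measurable_bg a t n) hg0 b (a k) hb ρ (t k) hρ (ht k hk) x hx
    (fun y hy => bg_ge a t n k hk y hy)
  have h2 : ‖avg d (t k) (bf d ρ) (bg d a t n) x‖ₑ ≤ radMax d T (bf d ρ) (bg d a t n) x :=
    le_iSup₂ (f := fun t' (_ : t' ∈ T) => ‖avg d t' (bf d ρ) (bg d a t n) x‖ₑ) (t k) (htT k hk)
  refine le_trans (le_of_eq ?_) (h1.trans h2)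
  have ht0 : 0 < t k := hρ.trans_le (ht k hk)
  rw [ENNReal.ofReal_mul (mul_nonneg (c0_pos hd).le (by positivity)),
    ENNReal.ofReal_mul (c0_pos hd).le, c0, ENNReal.ofReal_toReal (capConst_ne_top hd)]

lemma radMax_ge_q (hd : 1 ≤ d) (T : Set ℝ) (q : ℝ) (hq : 0 < q) (a t : ℕ → ℝ) (n : ℕ) (ρ : ℝ)
    (hρ : 0 < ρ) (ha : ∀ k, a k = (2 * t k) ^ (-(d / q) : ℝ)) (ht : ∀ k < n, ρ ≤ t k)
    (htT : ∀ k < n, t k ∈ T) :
    ∀ k < n, ∀ x : E d, ‖x‖ ≤ t k / 4 →
      ENNReal.ofReal ((ρ ^ d * (c0 d * 2 ^ (-(d / q) : ℝ))) * (t k) ^ (-(d / (q / (1 + q))) : ℝ)) ≤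
        radMax d T (bf d ρ) (bg d a t n) x := by
  intro k hk x hx
  have ht0 : 0 < t k := hρ.trans_le (ht k hk)
  refine le_trans (le_of_eq ?_) (radMax_ge hd T a t n ρ hρ (fun k hk => ?_) ht htT k hk x hx)
  · congr 1
    rw [ha k, Real.mul_rpow (by norm_num) ht0.le]
    have e : (-(d / (q / (1 + q))) : ℝ) = -(d : ℝ) + -(d / q) := by
      field_simp
      ring
    rw [e, Real.rpow_add ht0, Real.rpow_neg ht0.le, Real.rpow_natCast, div_pow]
    field_simp
  · rw [ha k]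
    have := hρ.trans_le (ht k hk)
    positivity

/-- the constant of the lower bound -/
noncomputable def kk (d : ℕ) (r b s : ℝ) : ℝ≥0∞ :=
  (ENNReal.ofReal r * (ENNReal.ofReal (b ^ s) * kLow d r s)) ^ (1 / s)

lemma kLow_ne_zero (r s : ℝ) : kLow d r s ≠ 0 := by
  unfold kLow
  refine mul_ne_zero ?_ ?_
  · rw [Ne, ENNReal.ofReal_eq_zero, not_le]; positivity
  · intro h
    rcases ENNReal.rpow_eq_zero_iff.mp h with h | h
    · exact volume_ball_pos.ne' h.1
    · exact volume_ball_ne_top h.1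

lemma kLow_ne_top (r s : ℝ) (h : 0 ≤ s / r) : kLow d r s ≠ ∞ := by
  unfold kLow
  exact ENNReal.mul_ne_top ENNReal.ofReal_ne_top
    (ENNReal.rpow_ne_top_of_nonneg h volume_ball_ne_top)

lemma kk_ne_zero (r b s : ℝ) (hr : 0 < r) (hb : 0 < b) (hs : 0 < s) : kk d r b s ≠ 0 := by
  unfold kk
  intro h
  have h1 : ENNReal.ofReal r * (ENNReal.ofReal (b ^ s) * kLow d r s) ≠ 0 := by
    refine mul_ne_zero ?_ (mul_ne_zero ?_ (kLow_ne_zero r s))
    · rw [Ne, ENNReal.ofReal_eq_zero, not_le]; exact hr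
    · rw [Ne, ENNReal.ofReal_eq_zero, not_le]; positivity
  rcases ENNReal.rpow_eq_zero_iff.mp h with h | h
  · exact h1 h.1
  · have : 0 < 1 / s := by positivity
    linarith [h.2]

lemma kk_ne_top (r b s : ℝ) (hr : 0 < r) (hs : 0 < s) : kk d r b s ≠ ∞ := by
  unfold kk
  refine ENNReal.rpow_ne_top_of_nonneg (by positivity) ?_
  exact ENNReal.mul_ne_top ENNReal.ofReal_ne_top
    (ENNReal.mul_ne_top ENNReal.ofReal_ne_top (kLow_ne_top r s (by positivity)))

/-- lower bound for the Lorentz quasi-norm of the maximal function -/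
theorem lor_low (hd : 1 ≤ d) (r b s ρ : ℝ) (hr : 0 < r) (hr1 : r ≤ 1) (hb : 0 < b) (hs : 0 < s)
    (hρ : 0 < ρ) (t : ℕ → ℝ) (n : ℕ) (ht : ∀ k < n, 0 < t k)
    (hsep : ∀ i j, i < j → j < n → 2 * t i ≤ t j) (h : E d → ℝ≥0∞)
    (hh : ∀ k < n, ∀ x, ‖x‖ < t k / 4 →
      ENNReal.ofReal ((ρ ^ d * b) * (t k) ^ (-(d / r) : ℝ)) ≤ h x) :
    (n : ℝ≥0∞) ^ (1 / s) * (ENNReal.ofReal (ρ ^ d) * kk d r b s) ≤ lorentz d r s h := by
  have h1 := lorentz_ge hd r s hr hr1 hs (ρ ^ d * b) (by positivity) t n ht hsep h hh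
  have h2 := ENNReal.rpow_le_rpow (mul_le_mul_right h1 (ENNReal.ofReal r))
    (by positivity : 0 ≤ 1 / s)
  refine le_trans (le_of_eq ?_) h2
  have e1 : ENNReal.ofReal ((ρ ^ d * b) ^ s) = ENNReal.ofReal (ρ ^ d) ^ s *
      ENNReal.ofReal (b ^ s) := by
    rw [Real.mul_rpow (by positivity) hb.le, ENNReal.ofReal_mul (by positivity),
      ENNReal.ofReal_rpow_of_pos (by positivity)]
  rw [e1, kk]
  have e2 : ENNReal.ofReal r * ((n : ℝ≥0∞) * (ENNReal.ofReal (ρ ^ d) ^ s *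
      ENNReal.ofReal (b ^ s) * kLow d r s)) =
      (n : ℝ≥0∞) * (ENNReal.ofReal (ρ ^ d) ^ s *
        (ENNReal.ofReal r * (ENNReal.ofReal (b ^ s) * kLow d r s))) := by ring
  have hs' : 0 ≤ 1 / s := by positivity
  rw [e2]
  generalize ENNReal.ofReal r * (ENNReal.ofReal (b ^ s) * kLow d r s) = G
  rw [ENNReal.mul_rpow_of_nonneg _ _ hs', ENNReal.mul_rpow_of_nonneg _ _ hs',
    ← ENNReal.rpow_mul, mul_one_div_cancel hs.ne', ENNReal.rpow_one]

/-- cancelling the common factor -/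
lemma cancel (P : ℝ) (hP : 0 < P) (x K C V Y : ℝ≥0∞)
    (h : x * (ENNReal.ofReal P * K) ≤ C * (ENNReal.ofReal P * V) * Y) : x * K ≤ C * (V * Y) := by
  have h1 : ENNReal.ofReal P * (x * K) ≤ ENNReal.ofReal P * (C * (V * Y)) := by
    calc ENNReal.ofReal P * (x * K) = x * (ENNReal.ofReal P * K) := by ring
      _ ≤ C * (ENNReal.ofReal P * V) * Y := h
      _ = _ := by ring
  rwa [ENNReal.mul_le_mul_iff_right (by simpa using hP) ENNReal.ofReal_ne_top] at h1

/-- from the inequality of extended numbers to a real inequality -/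
lemma conv (K K' : ℝ≥0∞) (hK : K ≠ 0) (hKt : K ≠ ∞) (hK' : K' ≠ 0) (hKt' : K' ≠ ∞) (α γ : ℝ)
    (hγ : 0 ≤ γ) :
    ∃ c : ℝ, 0 < c ∧ ∀ n : ℕ, 1 ≤ n → ∀ C : ℝ≥0,
      (n : ℝ≥0∞) ^ α * K ≤ C * (K' * (n : ℝ≥0∞) ^ γ) → c * (n : ℝ) ^ (α - γ) ≤ C := by
  have hKr : 0 < K.toReal := ENNReal.toReal_pos hK hKt
  have hKr' : 0 < K'.toReal := ENNReal.toReal_pos hK' hKt'
  refine ⟨K.toReal / K'.toReal, by positivity, fun n hn C h => ?_⟩
  have hn0 : (0 : ℝ) < n := by exact_mod_cast hn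
  have h1 := ENNReal.toReal_mono (ENNReal.mul_ne_top ENNReal.coe_ne_top
    (ENNReal.mul_ne_top hKt' (ENNReal.rpow_ne_top_of_nonneg hγ (ENNReal.natCast_ne_top n)))) h
  rw [ENNReal.toReal_mul, ENNReal.toReal_mul, ENNReal.toReal_mul, ← ENNReal.toReal_rpow,
    ← ENNReal.toReal_rpow, ENNReal.toReal_natCast, ENNReal.coe_toReal] at h1
  rw [Real.rpow_sub hn0]
  have hg : 0 < (n : ℝ) ^ γ := by positivity
  rw [div_mul_div_comm, div_le_iff₀ (by positivity)]
  calc K.toReal * (n : ℝ) ^ α = (n : ℝ) ^ α * K.toReal := mul_comm _ _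
    _ ≤ _ := h1

/-- the separated sequences of radii -/
def Sep (T : Set ℝ) (t : ℕ → ℝ) (n : ℕ) : Prop :=
  (∀ k < n, 0 < t k ∧ t k ∈ T) ∧ ∀ i j, i < j → j < n → 2 * t i ≤ t j

lemma Sep.ge {T : Set ℝ} {t : ℕ → ℝ} {n : ℕ} (h : Sep T t n) : ∀ k < n, t 0 ≤ t k := by
  intro k hk
  rcases Nat.eq_zero_or_pos k with h0 | h0
  · rw [h0]
  · have h1 := h.2 0 k h0 hk
    have h2 := (h.1 0 (by omega)).1
    linarith

/-- `n` separated radii in every set that is not contained in a compact subinterval of the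
half line -/
lemma exists_sep (T : Set ℝ) (hT : T ⊆ Ioi 0) (hT' : ∀ a b : ℝ, 0 < a → ¬ T ⊆ Icc a b)
    (n : ℕ) : ∃ t : ℕ → ℝ, Sep T t n := by
  induction n with
  | zero => exact ⟨fun _ => 1, fun k hk => absurd hk (by omega), fun i j _ hj => absurd hj (by omega)⟩
  | succ n ih =>
    obtain ⟨t, ht⟩ := ih
    by_cases hb : BddAbove T
    · obtain ⟨b, hb⟩ := hb
      have hlow : ∀ a : ℝ, 0 < a → ∃ x ∈ T, x < a := by
        intro a ha
        by_contra hcon
        push Not at hcon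
        exact hT' a b ha fun x hx => ⟨hcon x hx, hb hx⟩
      obtain ⟨x, hx, hx1⟩ := hlow (if n = 0 then 1 else t 0 / 2) (by
        split_ifs with h
        · exact one_pos
        · have := (ht.1 0 (by omega)).1
          positivity)
      refine ⟨fun k => if k = 0 then x else t (k - 1), ?_, ?_⟩
      · intro k hk
        rcases Nat.eq_zero_or_pos k with h0 | h0
        · rw [h0]
          simp only [if_true]
          exact ⟨hT hx, hx⟩
        · simp only [h0.ne', if_false]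
          exact ht.1 (k - 1) (by omega)
      · intro i j hij hj
        have hj0 : j ≠ 0 := by omega
        simp only [hj0, if_false]
        rcases Nat.eq_zero_or_pos i with h0 | h0
        · simp only [h0, if_true]
          have hn : n ≠ 0 := by omega
          simp only [hn, if_false] at hx1
          have := ht.ge (j - 1) (by omega)
          linarith
        · simp only [h0.ne', if_false]
          exact ht.2 (i - 1) (j - 1) (by omega) (by omega)
    · rw [not_bddAbove_iff] at hb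
      obtain ⟨x, hx, hx1⟩ := hb (∑ k ∈ Finset.range n, 2 * t k)
      refine ⟨fun k => if k = n then x else t k, ?_, ?_⟩
      · intro k hk
        by_cases h0 : k = n
        · simp only [h0, if_true]
          exact ⟨hT hx, hx⟩
        · simp only [h0, if_false]
          exact ht.1 k (by omega)
      · intro i j hij hj
        have hi0 : i ≠ n := by omega
        simp only [hi0, if_false]
        by_cases h0 : j = n
        · simp only [h0, if_true]
          have := Finset.single_le_sum (f := fun k => 2 * t k)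
            (fun j hj => mul_nonneg zero_le_two (ht.1 j (Finset.mem_range.mp hj)).1.le)
            (Finset.mem_range.mpr (by omega : i < n))
          linarith
        · simp only [h0, if_false]
          exact ht.2 i j hij (by omega)

/-- no inequality with a constant that grows -/
lemma no_bound (T : Set ℝ) (hT : T ⊆ Ioi 0) (hT' : ∀ a b : ℝ, 0 < a → ¬ T ⊆ Icc a b)
    (c e : ℝ) (hc : 0 < c) (he : 0 < e) (C : ℝ≥0)
    (h : ∀ n t, 1 ≤ n → Sep T t n → c * (n : ℝ) ^ e ≤ C) : False := by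
  have h1 : Filter.Tendsto (fun n : ℕ => c * (n : ℝ) ^ e) Filter.atTop Filter.atTop :=
    ((tendsto_rpow_atTop he).comp tendsto_natCast_atTop_atTop).const_mul_atTop hc
  obtain ⟨n, hn1, hn2⟩ := ((h1.eventually_gt_atTop (C : ℝ)).and
    (Filter.eventually_ge_atTop 1)).exists
  obtain ⟨t, ht⟩ := exists_sep T hT hT' n
  exact absurd (h n t hn2 ht) (not_le.mpr hn1)

end Pool.Agent.Y762.LB
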