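import Pool.Agent.Helper406.LacBilinear

/-!
# Test functions for the bilinear spherical averages at arbitrarily sparse sets of radii
-/

set_option autoImplicit false

open MeasureTheory Set
open scoped ENNReal NNReal Pointwise

namespace Pool.Agent.Y762.LB

open Pool.Agent.Helper406.LacBilinear

variable {d : ℕ}

/-- indicator function of the closed ball of radius `ρ` -/
noncomputable def bf (d : ℕ) (ρ : ℝ) (x : E d) : ℝ :=
  (Metric.closedBall (0 : E d) ρ).indicator 1 x

/-- `max_{k < n} a_k 1_{B(0, 2 t_k)}` -/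
noncomputable def bg (d : ℕ) (a t : ℕ → ℝ) : ℕ → E d → ℝ
  | 0 => fun _ => 0
  | (n + 1) => fun y => max (bg d a t n y) ((Metric.ball (0 : E d) (2 * t n)).indicator (fun _ => a n) y)

lemma bf_nonneg (ρ : ℝ) (x : E d) : 0 ≤ bf d ρ x := indicator_nonneg (fun _ _ => zero_le_one) _

lemma bf_le_one (ρ : ℝ) (x : E d) : bf d ρ x ≤ 1 :=
  indicator_le_self' (fun _ _ => zero_le_one) x |>.trans le_rfl

lemma measurable_bf (ρ : ℝ) : Measurable (bf d ρ) :=
  measurable_one.indicator Metric.isClosed_closedBall.measurableSet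

lemma bg_nonneg (a t : ℕ → ℝ) (n : ℕ) (y : E d) : 0 ≤ bg d a t n y := by
  induction n with
  | zero => exact le_rfl
  | succ n ih => exact le_max_of_le_left ih

lemma measurable_bg (a t : ℕ → ℝ) (n : ℕ) : Measurable (bg d a t n) := by
  induction n with
  | zero => exact measurable_const
  | succ n ih =>
    exact ih.max (measurable_const.indicator Metric.isOpen_ball.measurableSet)

lemma bg_ge (a t : ℕ → ℝ) (n k : ℕ) (hk : k < n) (y : E d) (hy : ‖y‖ < 2 * t k) :
    a k ≤ bg d a t n y := by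
  induction n with
  | zero => omega
  | succ n ih =>
    rcases Nat.lt_succ_iff_lt_or_eq.mp hk with h | h
    · exact le_max_of_le_left (ih h)
    · subst h
      refine le_max_of_le_right ?_
      rw [indicator_of_mem (mem_ball_zero_iff.mpr hy)]

lemma bg_cases (a t : ℕ → ℝ) (n : ℕ) (y : E d) :
    bg d a t n y = 0 ∨ ∃ k < n, ‖y‖ < 2 * t k ∧ bg d a t n y = a k := by
  induction n with
  | zero => exact Or.inl rfl
  | succ n ih =>
    have e : bg d a t (n + 1) y = max (bg d a t n y)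
      ((Metric.ball (0 : E d) (2 * t n)).indicator (fun _ => a n) y) := rfl
    rcases max_choice (bg d a t n y)
      ((Metric.ball (0 : E d) (2 * t n)).indicator (fun _ => a n) y) with h | h
    · rw [h] at e
      rw [e]
      rcases ih with ih | ⟨k, hk, h1, h2⟩
      · exact Or.inl ih
      · exact Or.inr ⟨k, by omega, h1, h2⟩
    · rw [h] at e
      rw [e]
      by_cases hy : y ∈ Metric.ball (0 : E d) (2 * t n)
      · rw [indicator_of_mem hy]
        exact Or.inr ⟨n, by omega, mem_ball_zero_iff.mp hy, rfl⟩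
      · rw [indicator_of_notMem hy]
        exact Or.inl rfl

lemma bg_le (a t : ℕ → ℝ) (n : ℕ) (b : ℝ) (hb : 0 ≤ b) (hab : ∀ k < n, a k ≤ b) (y : E d) :
    bg d a t n y ≤ b := by
  rcases bg_cases a t n y with h | ⟨k, hk, _, h⟩
  · rw [h]; exact hb
  · rw [h]; exact hab k hk

/-- lower bound for a single average -/
lemma avg_ge' (hd : 1 ≤ d) (g : E d → ℝ) (hg : Measurable g) (hg0 : ∀ y, 0 ≤ g y) (b m : ℝ)
    (hb : ∀ y, g y ≤ b) (ρ t : ℝ) (hρ : 0 < ρ) (ht : ρ ≤ t) (x : E d)
    (hx : ‖x‖ ≤ t / 4) (hgm : ∀ y, ‖y‖ < 2 * t → m ≤ g y) :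
    capConst d * ENNReal.ofReal ((ρ / t) ^ d) * ENNReal.ofReal m ≤ ‖avg d t (bf d ρ) g x‖ₑ := by
  have := isProbabilityMeasure_sigma hd
  have ht0 : 0 < t := by linarith
  have hb0 : 0 ≤ b := (hg0 0).trans (hb 0)
  set F : E d × E d → ℝ := fun w => bf d ρ (x - t • w.1) * g (x - t • w.2) with hF
  have hF0 : ∀ w, 0 ≤ F w := fun w => mul_nonneg (bf_nonneg _ _) (hg0 _)
  have hFm : Measurable F := by
    refine ((measurable_bf ρ).comp ?_).mul (hg.comp ?_)
    · exact Continuous.measurable (by fun_prop)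
    · exact Continuous.measurable (by fun_prop)
  have hF1 : ∀ w, ‖F w‖ ≤ b := by
    intro w
    rw [Real.norm_of_nonneg (hF0 w)]
    calc F w ≤ 1 * b := mul_le_mul (bf_le_one _ _) (hb _) (hg0 _) zero_le_one
      _ = b := one_mul b
  have hFi : Integrable F (sigma d) :=
    Integrable.of_bound hFm.aestronglyMeasurable b (Filter.Eventually.of_forall hF1)
  have havg : avg d t (bf d ρ) g x = ∫ w, F w ∂(sigma d) := rfl
  rw [havg, Real.enorm_of_nonneg (integral_nonneg hF0),
    ofReal_integral_eq_lintegral_ofReal hFi (Filter.Eventually.of_forall hF0)]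
  have hcap : capConst d * ENNReal.ofReal ((ρ / t) ^ d) ≤ sigma d (cap d (ρ⁻¹ • x) (ρ⁻¹ * t)) := by
    have h1 := sigma_cap_ge (d := d) (ρ⁻¹ • x) (ρ⁻¹ * t)
      (by rw [← div_eq_inv_mul, le_div_iff₀ hρ]; linarith)
      (by
        rw [norm_smul, norm_inv, Real.norm_of_nonneg hρ.le, mul_div_assoc]
        exact mul_le_mul_of_nonneg_left hx (by positivity))
    have e : (ρ⁻¹ * t)⁻¹ = ρ / t := by field_simp
    rw [e] at h1
    exact h1
  have hlow : ∀ w ∈ cap d (ρ⁻¹ • x) (ρ⁻¹ * t), m ≤ F w := by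
    intro w hw
    obtain ⟨hw1, hsnd⟩ := hw
    have e1 : ρ⁻¹ • x - (ρ⁻¹ * t) • w.1 = ρ⁻¹ • (x - t • w.1) := by
      rw [smul_sub, smul_smul]
    rw [e1, norm_smul, norm_inv, Real.norm_of_nonneg hρ.le, inv_mul_le_iff₀ hρ, mul_one] at hw1
    have h1 : bf d ρ (x - t • w.1) = 1 := by
      unfold bf
      rw [indicator_of_mem (mem_closedBall_zero_iff.mpr hw1)]
      rfl
    have hn : ‖x - t • w.2‖ < 2 * t := by
      calc ‖x - t • w.2‖ ≤ ‖x‖ + ‖t • w.2‖ := norm_sub_le _ _
        _ ≤ t / 4 + t * 1 := by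
            rw [norm_smul, Real.norm_of_nonneg ht0.le]
            exact add_le_add hx (mul_le_mul_of_nonneg_left hsnd ht0.le)
        _ < 2 * t := by linarith
    rw [hF]
    simp only
    rw [h1, one_mul]
    exact hgm _ hn
  calc capConst d * ENNReal.ofReal ((ρ / t) ^ d) * ENNReal.ofReal m
      ≤ sigma d (cap d (ρ⁻¹ • x) (ρ⁻¹ * t)) * ENNReal.ofReal m := mul_le_mul_left hcap _
    _ = ∫⁻ w in cap d (ρ⁻¹ • x) (ρ⁻¹ * t), ENNReal.ofReal m ∂(sigma d) := by
        rw [setLIntegral_const, mul_comm]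
    _ ≤ ∫⁻ w in cap d (ρ⁻¹ • x) (ρ⁻¹ * t), ENNReal.ofReal (F w) ∂(sigma d) :=
        setLIntegral_mono' (measurableSet_cap _ _) fun w hw => ENNReal.ofReal_le_ofReal (hlow w hw)
    _ ≤ ∫⁻ w, ENNReal.ofReal (F w) ∂(sigma d) := setLIntegral_le_lintegral _ _

lemma volume_ball_eq (s : ℝ) (hs : 0 < s) :
    volume (Metric.ball (0 : E d) s) =
      ENNReal.ofReal (s ^ d) * volume (Metric.ball (0 : E d) 1) := by
  rw [Measure.addHaar_ball_of_pos (volume : Measure (E d)) 0 hs]
  simp

lemma lintegral_bf (ρ : ℝ) (hρ : 0 < ρ) :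
    ∫⁻ x, ‖bf d ρ x‖ₑ = ENNReal.ofReal (ρ ^ d) * volume (Metric.ball (0 : E d) 1) := by
  have h : ∀ x, ‖bf d ρ x‖ₑ = (Metric.closedBall (0 : E d) ρ).indicator
      (fun _ => (1 : ℝ≥0∞)) x := by
    intro x
    unfold bf
    by_cases hx : x ∈ Metric.closedBall (0 : E d) ρ
    · rw [indicator_of_mem hx, indicator_of_mem hx]; simp
    · rw [indicator_of_notMem hx, indicator_of_notMem hx]; simp
  simp_rw [h]
  rw [lintegral_indicator Metric.isClosed_closedBall.measurableSet, setLIntegral_const, one_mul,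
    Measure.addHaar_closedBall (volume : Measure (E d)) 0 hρ.le]
  simp

lemma eLpNorm_bf (ρ : ℝ) (hρ : 0 < ρ) :
    eLpNorm (bf d ρ) 1 volume = ENNReal.ofReal (ρ ^ d) * volume (Metric.ball (0 : E d) 1) := by
  rw [eLpNorm_one_eq_lintegral_enorm, lintegral_bf ρ hρ]

/-- the `L ^ q` norm of the second test function -/
lemma lintegral_bg (q : ℝ) (hq : 0 < q) (a t : ℕ → ℝ) (n : ℕ) (ht : ∀ k < n, 0 < t k)
    (ha : ∀ k < n, a k = (2 * t k) ^ (-(d / q : ℝ))) :
    ∫⁻ y, ‖bg d a t n y‖ₑ ^ q ≤ n * volume (Metric.ball (0 : E d) 1) := by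
  have hpt : ∀ y : E d, ‖bg d a t n y‖ₑ ^ q ≤ ∑ k ∈ Finset.range n,
      (Metric.ball (0 : E d) (2 * t k)).indicator
        (fun _ => ENNReal.ofReal ((2 * t k)⁻¹ ^ d)) y := by
    intro y
    rcases bg_cases a t n y with h | ⟨k, hk, h1, h2⟩
    · rw [h, enorm_zero, ENNReal.zero_rpow_of_pos hq]
      exact zero_le
    · have htk := ht k hk
      refine le_trans ?_ (Finset.single_le_sum (f := fun k =>
        (Metric.ball (0 : E d) (2 * t k)).indicator
        (fun _ => ENNReal.ofReal ((2 * t k)⁻¹ ^ d)) y) (fun _ _ => zero_le)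
        (Finset.mem_range.mpr hk))
      rw [h2, ha k hk, indicator_of_mem (mem_ball_zero_iff.mpr h1),
        Real.enorm_of_nonneg (by positivity), ENNReal.ofReal_rpow_of_pos (by positivity),
        ← Real.rpow_mul (by positivity)]
      apply ENNReal.ofReal_le_ofReal
      have e : -(d / q) * q = -(d : ℝ) := by field_simp
      rw [e, Real.rpow_neg (by positivity), Real.rpow_natCast, ← inv_pow]
  calc ∫⁻ y, ‖bg d a t n y‖ₑ ^ q ≤ ∫⁻ y, ∑ k ∈ Finset.range n,
      (Metric.ball (0 : E d) (2 * t k)).indicator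
        (fun _ => ENNReal.ofReal ((2 * t k)⁻¹ ^ d)) y := lintegral_mono hpt
    _ = ∑ k ∈ Finset.range n, ∫⁻ y, (Metric.ball (0 : E d) (2 * t k)).indicator
        (fun _ => ENNReal.ofReal ((2 * t k)⁻¹ ^ d)) y := by
        rw [lintegral_finsetSum]
        intro j _
        exact measurable_const.indicator Metric.isOpen_ball.measurableSet
    _ = ∑ k ∈ Finset.range n, volume (Metric.ball (0 : E d) 1) := by
        refine Finset.sum_congr rfl fun k hk => ?_
        have htk := ht k (Finset.mem_range.mp hk)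
        rw [lintegral_indicator Metric.isOpen_ball.measurableSet, setLIntegral_const,
          volume_ball_eq _ (by positivity), ← mul_assoc, ← ENNReal.ofReal_mul (by positivity),
          ← mul_pow, inv_mul_cancel₀ (by positivity), one_pow, ENNReal.ofReal_one, one_mul]
    _ = _ := by simp

end Pool.Agent.Y762.LB
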